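import Pool.Agent.N939.ME.Stm

/-!
# Project ME, step ME23: the central limit theorem from uniform integrability and the convergence
of the conditional variances
-/

set_option autoImplicit false
open MeasureTheory ProbabilityTheory Filter Topology Finset
open scoped Classical
open Pool.Agent.N939.ME

namespace Pool.Agent.N99.ME

/-! ### elementary facts -/

/-- remainder of the exponential -/
noncomputable def rem (x : ℝ) : ℂ :=
  Complex.exp ((x : ℂ) * Complex.I) - (1 + (x : ℂ) * Complex.I - (x : ℂ) ^ 2 / 2)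

lemma rem_le (x : ℝ) : ‖rem x‖ ≤ 4 * |x| ^ 3 ∧ ‖rem x‖ ≤ 4 * x ^ 2 := by
  have hx0 : 0 ≤ |x| := abs_nonneg x
  have hsq : |x| ^ 2 = x ^ 2 := sq_abs x
  rcases le_total |x| 1 with h | h
  · have h1 : ‖(x : ℂ) * Complex.I‖ ≤ 1 := by
      rw [norm_mul, Complex.norm_I, mul_one, Complex.norm_real, Real.norm_eq_abs]
      exact h
    have h2 := Complex.exp_bound h1 (n := 3) (by norm_num)
    have h3 : (∑ m ∈ range 3, ((x : ℂ) * Complex.I) ^ m / (m.factorial : ℂ)) =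
        1 + (x : ℂ) * Complex.I - (x : ℂ) ^ 2 / 2 := by
      rw [Finset.sum_range_succ, Finset.sum_range_succ, Finset.sum_range_succ,
        Finset.sum_range_zero]
      have h4 : ((x : ℂ) * Complex.I) ^ 2 = -(x : ℂ) ^ 2 := by
        rw [mul_pow, Complex.I_sq]
        ring
      rw [h4]
      norm_num [Nat.factorial]
      ring
    rw [h3] at h2
    have h4 : ‖(x : ℂ) * Complex.I‖ = |x| := by
      rw [norm_mul, Complex.norm_I, mul_one, Complex.norm_real, Real.norm_eq_abs]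
    rw [h4] at h2
    have h5 : ‖rem x‖ ≤ |x| ^ 3 := by
      refine h2.trans ?_
      have : ((Nat.succ 3 : ℕ) : ℝ) * (((Nat.factorial 3 : ℕ) : ℝ) * ((3 : ℕ) : ℝ))⁻¹ ≤ 1 := by
        norm_num [Nat.factorial]
      calc |x| ^ 3 * (((Nat.succ 3 : ℕ) : ℝ) * (((Nat.factorial 3 : ℕ) : ℝ) * ((3 : ℕ) : ℝ))⁻¹)
          ≤ |x| ^ 3 * 1 := mul_le_mul_of_nonneg_left this (by positivity)
        _ = |x| ^ 3 := mul_one _
    have h6 : |x| ^ 3 ≤ x ^ 2 := by
      rw [← hsq]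
      nlinarith [pow_nonneg hx0 2]
    constructor
    · have : 0 ≤ |x| ^ 3 := by positivity
      linarith
    · have : 0 ≤ x ^ 2 := sq_nonneg x
      linarith
  · have h1 : ‖rem x‖ ≤ 1 + (1 + |x| + x ^ 2 / 2) := by
      unfold rem
      refine (norm_sub_le _ _).trans ?_
      rw [Complex.norm_exp_ofReal_mul_I]
      refine add_le_add le_rfl ?_
      refine (norm_sub_le _ _).trans ?_
      refine add_le_add ((norm_add_le _ _).trans ?_) ?_
      · rw [norm_mul, Complex.norm_I, mul_one, Complex.norm_real, Real.norm_eq_abs, norm_one]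
      · rw [norm_div, norm_pow, Complex.norm_real, Real.norm_eq_abs, hsq]
        norm_num
    have h2 : |x| ≤ x ^ 2 := by rw [← hsq]; nlinarith
    have h3 : x ^ 2 ≤ |x| ^ 3 := by
      rw [← hsq]
      nlinarith [pow_nonneg hx0 2]
    constructor <;> nlinarith

lemma tele (a : ℕ → ℂ) (κ e : ℝ) (h0 : a 0 = 1) (hκ : |κ| ≤ 1)
    (he : ∀ j, ‖a (j + 1) - (κ : ℂ) * a j‖ ≤ e) (L : ℕ) : ‖a L - (κ : ℂ) ^ L‖ ≤ L * e := by
  induction L with
  | zero => simp [h0]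
  | succ L ih =>
    have h1 : a (L + 1) - (κ : ℂ) ^ (L + 1) =
        (a (L + 1) - (κ : ℂ) * a L) + (κ : ℂ) * (a L - (κ : ℂ) ^ L) := by ring
    rw [h1]
    refine (norm_add_le _ _).trans ?_
    rw [norm_mul, Complex.norm_real, Real.norm_eq_abs]
    have h2 : |κ| * ‖a L - (κ : ℂ) ^ L‖ ≤ 1 * (L * e) :=
      mul_le_mul hκ ih (norm_nonneg _) zero_le_one
    push_cast
    linarith [he L]

/-- integrals against bounded phases which are measurable with respect to `m` -/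
lemma cond_bound {Ω : Type} {m mΩ : MeasurableSpace Ω} (hm : m ≤ mΩ) (μ : Measure Ω)
    [IsProbabilityMeasure μ] (Z Y : Ω → ℝ) (hZ : Measurable[m] Z) (hY : Integrable Y μ) :
    ‖∫ ω, Complex.exp ((Z ω : ℂ) * Complex.I) * (Y ω : ℂ) ∂μ‖ ≤ 2 * ∫ ω, |(μ[Y | m]) ω| ∂μ := by
  have key : ∀ W : Ω → ℝ, Measurable[m] W → (∀ ω, |W ω| ≤ 1) →
      Integrable (fun ω => W ω * Y ω) μ ∧
      |∫ ω, W ω * Y ω ∂μ| ≤ ∫ ω, |(μ[Y | m]) ω| ∂μ := by
    intro W hW hb
    have hWs : StronglyMeasurable[m] W := hW.stronglyMeasurable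
    have hint : Integrable (fun ω => W ω * Y ω) μ := by
      refine hY.bdd_mul (c := 1) (hWs.mono hm).aestronglyMeasurable (ae_of_all _ fun ω => ?_)
      rw [Real.norm_eq_abs]
      exact hb ω
    refine ⟨hint, ?_⟩
    have h1 : ∫ ω, W ω * Y ω ∂μ = ∫ ω, W ω * (μ[Y | m]) ω ∂μ := by
      have h2 := condExp_mul_of_stronglyMeasurable_left hWs hint hY
      rw [← integral_condExp hm (f := fun ω => W ω * Y ω)]
      exact integral_congr_ae h2
    rw [h1, ← Real.norm_eq_abs]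
    refine (norm_integral_le_integral_norm (fun ω => W ω * (μ[Y | m]) ω)).trans ?_
    refine integral_mono_of_nonneg (ae_of_all _ fun ω => norm_nonneg _)
      integrable_condExp.abs (ae_of_all _ fun ω => ?_)
    show ‖W ω * (μ[Y | m]) ω‖ ≤ |(μ[Y | m]) ω|
    rw [Real.norm_eq_abs, abs_mul]
    calc |W ω| * |(μ[Y | m]) ω| ≤ 1 * |(μ[Y | m]) ω| :=
          mul_le_mul_of_nonneg_right (hb ω) (abs_nonneg _)
      _ = _ := one_mul _
  obtain ⟨hi1, hb1⟩ := key (fun ω => Real.cos (Z ω)) (Real.measurable_cos.comp hZ)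
    fun ω => Real.abs_cos_le_one _
  obtain ⟨hi2, hb2⟩ := key (fun ω => Real.sin (Z ω)) (Real.measurable_sin.comp hZ)
    fun ω => Real.abs_sin_le_one _
  have h1 : ∀ ω, Complex.exp ((Z ω : ℂ) * Complex.I) * (Y ω : ℂ) =
      ((Real.cos (Z ω) * Y ω : ℝ) : ℂ) + Complex.I * ((Real.sin (Z ω) * Y ω : ℝ) : ℂ) := by
    intro ω
    rw [Complex.exp_mul_I]
    push_cast
    ring
  simp_rw [h1]
  rw [integral_add hi1.ofReal (hi2.ofReal.const_mul _), integral_const_mul,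
    integral_complex_ofReal, integral_complex_ofReal]
  refine (norm_add_le _ _).trans ?_
  rw [norm_mul, Complex.norm_I, one_mul, Complex.norm_real, Complex.norm_real, Real.norm_eq_abs,
    Real.norm_eq_abs]
  linarith

/-! ### the law of the block sums -/

section law

variable {S : Type} [MeasurableSpace S] {Q : Kernel S S} [IsMarkovKernel Q] {ν : Measure S}
  [IsProbabilityMeasure ν] {Ω : Type} [MeasurableSpace Ω] {μ : Measure Ω}
  [IsProbabilityMeasure μ] {X : ℕ → Ω → S}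

set_option linter.unusedSectionVars false
set_option linter.unusedVariables false

lemma FX_le (hX : ∀ i, Measurable (X i)) (n : ℕ) : FX X n ≤ (inferInstance : MeasurableSpace Ω) :=
  (Fil X hX).le n

lemma meas_FX {i n : ℕ} (h : i ≤ n) : Measurable[FX X n] (X i) := by
  have h1 : MeasurableSpace.comap (X i) inferInstance ≤ FX X n := le_iSup₂_of_le i h le_rfl
  exact (measurable_iff_comap_le).2 h1

lemma meas_sum {f : S → ℝ} (mf : Measurable f) {a m n : ℕ} (h : ∀ i < m, a + i ≤ n) :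
    Measurable[FX X n] (fun ω => ∑ i ∈ range m, f (X (a + i) ω)) := by
  refine Finset.measurable_sum _ fun i hi => ?_
  exact mf.comp (meas_FX (h i (mem_range.1 hi)))

lemma meas_sum' (hX : MC Q ν μ X) {f : S → ℝ} (mf : Measurable f) (a m : ℕ) :
    Measurable (fun ω => ∑ i ∈ range m, f (X (a + i) ω)) :=
  Finset.measurable_sum _ fun i _ => mf.comp (hX.meas _)

/-- the law of the pair (sum over a block, next state) does not depend on the start -/
lemma law_pair (hTT : S_TT) (hML : S_ML) (hν : ν.bind Q = ν) (hX : MC Q ν μ X) {f : S → ℝ}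
    (mf : Measurable f) (m : ℕ) : ∀ n : ℕ,
    μ.map (fun ω => (∑ i ∈ range m, f (X (n + i) ω), X (n + m) ω)) =
      μ.map (fun ω => (∑ i ∈ range m, f (X (0 + i) ω), X (0 + m) ω)) := by
  obtain ⟨hmap, -, hML3⟩ := hML S Q ν hν Ω μ X hX
  have mpair : ∀ m n : ℕ, Measurable (fun ω => (∑ i ∈ range m, f (X (n + i) ω), X (n + m) ω)) :=
    fun m n => (meas_sum' hX mf n m).prodMk (hX.meas _)
  induction m with
  | zero =>
    intro n
    have : IsProbabilityMeasure (μ.map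
        (fun ω => (∑ i ∈ range 0, f (X (n + i) ω), X (n + 0) ω))) :=
      Measure.isProbabilityMeasure_map (mpair 0 n).aemeasurable
    refine Measure.ext_prod fun {s t} hs ht => ?_
    rw [Measure.map_apply (mpair 0 n) (hs.prod ht), Measure.map_apply (mpair 0 0) (hs.prod ht)]
    by_cases h0 : (0 : ℝ) ∈ s
    · have h1 : ∀ k : ℕ, (fun ω => (∑ i ∈ range 0, f (X (k + i) ω), X (k + 0) ω)) ⁻¹' (s ×ˢ t) =
          X k ⁻¹' t := by
        intro k
        ext ω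
        simp [h0]
      rw [h1, h1, ← Measure.map_apply (hX.meas _) ht, ← Measure.map_apply (hX.meas _) ht, hmap,
        hmap]
    · have h1 : ∀ k : ℕ, (fun ω => (∑ i ∈ range 0, f (X (k + i) ω), X (k + 0) ω)) ⁻¹' (s ×ˢ t) =
          ∅ := by
        intro k
        ext ω
        simp [h0]
      rw [h1, h1]
  | succ m ih =>
    intro n
    have : IsProbabilityMeasure (μ.map
        (fun ω => (∑ i ∈ range (m + 1), f (X (n + i) ω), X (n + (m + 1)) ω))) :=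
      Measure.isProbabilityMeasure_map (mpair (m + 1) n).aemeasurable
    refine Measure.ext_prod fun {s t} hs ht => ?_
    rw [Measure.map_apply (mpair (m + 1) n) (hs.prod ht),
      Measure.map_apply (mpair (m + 1) 0) (hs.prod ht)]
    have mg : Measurable (t.indicator (1 : S → ℝ)) := measurable_one.indicator ht
    have ig : Integrable (t.indicator (1 : S → ℝ)) ν := (integrable_const (1:ℝ)).indicator ht
    have mT := (hTT S Q ν hν).1 _ mg
    have mG : Measurable (fun p : ℝ × S => s.indicator (1 : ℝ → ℝ) (p.1 + f p.2) *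
        TT Q (t.indicator 1) p.2) :=
      ((measurable_one.indicator hs).comp (measurable_fst.add (mf.comp measurable_snd))).mul
        (mT.comp measurable_snd)
    have key : ∀ k : ℕ, μ.real ((fun ω => (∑ i ∈ range (m + 1), f (X (k + i) ω),
        X (k + (m + 1)) ω)) ⁻¹' (s ×ˢ t)) = ∫ p, s.indicator (1 : ℝ → ℝ) (p.1 + f p.2) *
        TT Q (t.indicator 1) p.2 ∂(μ.map (fun ω => (∑ i ∈ range m, f (X (k + i) ω),
          X (k + m) ω))) := by
      intro k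
      rw [integral_map (mpair m k).aemeasurable mG.aestronglyMeasurable]
      have mZ : Measurable[FX X (k + m)] (fun ω => s.indicator (1 : ℝ → ℝ)
          (∑ i ∈ range (m + 1), f (X (k + i) ω))) :=
        (measurable_one.indicator hs).comp (meas_sum mf fun i hi => by omega)
      have mZ' := mZ.mono (FX_le hX.meas _) le_rfl
      have hb : ∀ ω, |s.indicator (1 : ℝ → ℝ) (∑ i ∈ range (m + 1), f (X (k + i) ω)) *
          t.indicator (1 : S → ℝ) (X (k + m + 1) ω)| ≤ 1 := by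
        intro ω
        by_cases h1 : (∑ i ∈ range (m + 1), f (X (k + i) ω)) ∈ s <;>
        by_cases h2 : X (k + m + 1) ω ∈ t <;> simp [h1, h2]
      have hi : Integrable (fun ω => s.indicator (1 : ℝ → ℝ)
          (∑ i ∈ range (m + 1), f (X (k + i) ω)) * t.indicator (1 : S → ℝ) (X (k + m + 1) ω)) μ :=
        Integrable.of_bound (mZ'.mul (mg.comp (hX.meas _))).aestronglyMeasurable 1
          (ae_of_all _ fun ω => by rw [Real.norm_eq_abs]; exact hb ω)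
      have h1 := (hML3 (k + m) _ _ mg ig mZ hi).2
      have h2 : ∀ ω, s.indicator (1 : ℝ → ℝ) (∑ i ∈ range (m + 1), f (X (k + i) ω)) *
          TT Q (t.indicator 1) (X (k + m) ω) =
          s.indicator (1 : ℝ → ℝ) (∑ i ∈ range m, f (X (k + i) ω) + f (X (k + m) ω)) *
          TT Q (t.indicator 1) (X (k + m) ω) := by
        intro ω
        rw [Finset.sum_range_succ]
      simp_rw [h2] at h1
      rw [← h1]
      have hms : MeasurableSet ((fun ω => (∑ i ∈ range (m + 1), f (X (k + i) ω),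
          X (k + (m + 1)) ω)) ⁻¹' (s ×ˢ t)) := (mpair (m + 1) k) (hs.prod ht)
      rw [← integral_indicator_one hms]
      refine integral_congr_ae (ae_of_all _ fun ω => ?_)
      show _ = s.indicator (1 : ℝ → ℝ) (∑ i ∈ range (m + 1), f (X (k + i) ω)) *
        t.indicator (1 : S → ℝ) (X (k + m + 1) ω)
      by_cases h1 : (∑ i ∈ range (m + 1), f (X (k + i) ω)) ∈ s <;>
        by_cases h2 : X (k + m + 1) ω ∈ t
      · have h3 : ω ∈ ((fun ω => (∑ i ∈ range (m + 1), f (X (k + i) ω),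
            X (k + (m + 1)) ω)) ⁻¹' (s ×ˢ t)) := ⟨h1, h2⟩
        rw [Set.indicator_of_mem h3, Set.indicator_of_mem h1, Set.indicator_of_mem h2]
        simp
      · rw [Set.indicator_of_notMem (fun h => h2 h.2), Set.indicator_of_notMem h2, mul_zero]
      · rw [Set.indicator_of_notMem (fun h => h1 h.1), Set.indicator_of_notMem h1, zero_mul]
      · rw [Set.indicator_of_notMem (fun h => h1 h.1), Set.indicator_of_notMem h1, zero_mul]
    have h3 := key n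
    rw [ih n, ← key 0] at h3
    exact (measureReal_eq_measureReal_iff (measure_ne_top _ _) (measure_ne_top _ _)).1 h3

/-- functions of block sums -/
lemma law_int (hTT : S_TT) (hML : S_ML) (hν : ν.bind Q = ν) (hX : MC Q ν μ X) {f : S → ℝ}
    (mf : Measurable f) (m n : ℕ) (G : ℝ → ℝ) (hG : Measurable G) :
    ∫ ω, G (∑ i ∈ range m, f (X (n + i) ω)) ∂μ = ∫ ω, G (SS f X m ω) ∂μ := by
  have h := law_pair hTT hML hν hX mf m n
  have mpair : ∀ m n : ℕ, Measurable (fun ω => (∑ i ∈ range m, f (X (n + i) ω), X (n + m) ω)) :=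
    fun m n => (meas_sum' hX mf n m).prodMk (hX.meas _)
  have h1 : ∀ k, ∫ ω, G (∑ i ∈ range m, f (X (k + i) ω)) ∂μ =
      ∫ p, G p.1 ∂(μ.map (fun ω => (∑ i ∈ range m, f (X (k + i) ω), X (k + m) ω))) := by
    intro k
    exact (integral_map (mpair m k).aemeasurable (f := fun p : ℝ × S => G p.1)
      (hG.comp measurable_fst).aestronglyMeasurable).symm
  rw [h1, h, ← h1]
  simp only [zero_add]
  rfl

/-- one block -/
lemma block (hTT : S_TT) (hML : S_ML) (hG1 : S_G1) (hν : ν.bind Q = ν) (hX : MC Q ν μ X)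
    {f : S → ℝ} (mf : Measurable f) (lf : MemLp f 2 ν) (C η R s : ℝ) (hR0 : 0 < R)
    (hC : ∀ n : ℕ, ∫ ω, SS f X n ω ^ 2 ∂μ ≤ C * n)
    (hR : ∀ N : ℕ, ∫ ω, (if R * N < SS f X N ω ^ 2 then SS f X N ω ^ 2 else 0) ∂μ ≤ η * N)
    (t h : ℕ) (θ : ℝ) :
    ‖∫ ω, Complex.exp (((θ * SS f X t ω : ℝ) : ℂ) * Complex.I) *
        (Complex.exp (((θ * ∑ i ∈ range h, f (X (t + i) ω) : ℝ) : ℂ) * Complex.I) -
          ((1 - θ ^ 2 * (h * s) / 2 : ℝ) : ℂ)) ∂μ‖ ≤
      2 * |θ| * ∫ x, |GG Q f h x| ∂ν + θ ^ 2 * ∫ x, |VV Q f h x - h * s| ∂ν +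
        (4 * θ ^ 2 * (η * h) + 4 * |θ| ^ 3 * Real.sqrt (R * h) * (C * h)) := by
  obtain ⟨hmap, -, -⟩ := hML S Q ν hν Ω μ X hX
  obtain ⟨hGV, hG1'⟩ := hG1 S Q ν hν f mf lf
  obtain ⟨-, hc1, hc2, -⟩ := hG1' Ω μ X hX
  obtain ⟨mGG, lGG, mVV, iVV⟩ := hGV h
  obtain ⟨D, hDd⟩ : ∃ D : Ω → ℝ, D = fun ω => ∑ i ∈ range h, f (X (t + i) ω) := ⟨_, rfl⟩
  have hmp : ∀ i, MeasurePreserving (X i) μ ν := fun i => ⟨hX.meas i, hmap i⟩
  have mD : Measurable D := by rw [hDd]; exact meas_sum' hX mf t h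
  have lD : MemLp D 2 μ := by
    rw [hDd]
    exact memLp_finsetSum _ fun i _ => lf.comp_measurePreserving (hmp (t + i))
  have iD : Integrable D μ := lD.integrable (by norm_num)
  have iD2 : Integrable (fun ω => D ω ^ 2) μ := lD.integrable_sq
  have mS : Measurable[FX X t] (fun ω => θ * SS f X t ω) := by
    have h1 : Measurable[FX X t] (fun ω => ∑ i ∈ range t, f (X (0 + i) ω)) :=
      meas_sum mf fun i hi => by omega
    simp only [zero_add] at h1
    exact h1.const_mul θ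
  have mS' := mS.mono (FX_le hX.meas t) le_rfl
  -- the three parts
  have hF := FX_le (X := X) hX.meas t
  have b1 := cond_bound hF μ (fun ω => θ * SS f X t ω) D mS iD
  have b2 := cond_bound hF μ (fun ω => θ * SS f X t ω) (fun ω => D ω ^ 2 - h * s) mS
    (iD2.sub (integrable_const _))
  have e1 : ∫ ω, |(μ[D | FX X t]) ω| ∂μ = ∫ x, |GG Q f h x| ∂ν := by
    have h1 : ∫ ω, |(μ[D | FX X t]) ω| ∂μ = ∫ ω, |GG Q f h (X t ω)| ∂μ := by
      refine integral_congr_ae ?_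
      have := hc1 t h
      rw [hDd]
      filter_upwards [this] with ω hω
      rw [hω]
    rw [h1, ← hmap t, integral_map (hX.meas t).aemeasurable mGG.abs.aestronglyMeasurable]
  have e2 : ∫ ω, |(μ[fun ω => D ω ^ 2 - h * s | FX X t]) ω| ∂μ =
      ∫ x, |VV Q f h x - h * s| ∂ν := by
    have h1 : ∫ ω, |(μ[fun ω => D ω ^ 2 - h * s | FX X t]) ω| ∂μ =
        ∫ ω, |VV Q f h (X t ω) - h * s| ∂μ := by
      refine integral_congr_ae ?_
      have h2 := hc2 t h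
      have h3 := condExp_sub (m := FX X t) iD2 (integrable_const (μ := μ) ((h : ℝ) * s))
      have h4 : (μ[fun _ : Ω => (h : ℝ) * s | FX X t]) = fun _ => (h : ℝ) * s :=
        condExp_const hF _
      have h5 : (fun ω => D ω ^ 2 - h * s) = ((fun ω => D ω ^ 2) - fun _ => (h : ℝ) * s) := rfl
      rw [h5]
      have h6 : (fun ω => D ω ^ 2) = fun ω => (∑ i ∈ range h, f (X (t + i) ω)) ^ 2 := by
        rw [hDd]
      rw [← h6] at h2
      filter_upwards [h2, h3] with ω hω hω'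
      rw [hω', Pi.sub_apply, hω, h4]
    rw [h1, ← hmap t, integral_map (hX.meas t).aemeasurable
      (f := fun x => |VV Q f h x - h * s|) (mVV.sub measurable_const).abs.aestronglyMeasurable]
  rw [e1] at b1
  rw [e2] at b2
  -- the remainder
  have mrem : Measurable (fun ω => rem (θ * D ω)) := by
    unfold rem
    have : Measurable (fun ω => ((θ * D ω : ℝ) : ℂ)) :=
      Complex.measurable_ofReal.comp (mD.const_mul θ)
    fun_prop
  have iIte : Integrable (fun ω => if R * h < D ω ^ 2 then D ω ^ 2 else 0) μ := by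
    refine iD2.mono' ?_ (ae_of_all _ fun ω => ?_)
    · exact (Measurable.ite (measurableSet_lt measurable_const (mD.pow_const 2))
        (mD.pow_const 2) measurable_const).aestronglyMeasurable
    · split_ifs
      · rw [Real.norm_eq_abs, abs_of_nonneg (sq_nonneg _)]
      · simp [sq_nonneg]
  have hpt : ∀ ω, ‖rem (θ * D ω)‖ ≤ 4 * θ ^ 2 * (if R * h < D ω ^ 2 then D ω ^ 2 else 0) +
      4 * |θ| ^ 3 * Real.sqrt (R * h) * D ω ^ 2 := by
    intro ω
    obtain ⟨r1, r2⟩ := rem_le (θ * D ω)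
    have hp : 0 ≤ 4 * |θ| ^ 3 * Real.sqrt (R * h) * D ω ^ 2 := by positivity
    split_ifs with hc
    · rw [mul_pow] at r2
      linarith
    · push Not at hc
      have h1 : |D ω| ≤ Real.sqrt (R * h) := Real.abs_le_sqrt hc
      rw [abs_mul, mul_pow] at r1
      have h2 : |D ω| ^ 3 ≤ Real.sqrt (R * h) * D ω ^ 2 := by
        rw [← sq_abs (D ω), pow_succ, mul_comm]
        exact mul_le_mul_of_nonneg_right h1 (by positivity)
      have h3 : |θ| ^ 3 * |D ω| ^ 3 ≤ |θ| ^ 3 * (Real.sqrt (R * h) * D ω ^ 2) :=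
        mul_le_mul_of_nonneg_left h2 (by positivity)
      linarith
  have irem : Integrable (fun ω => rem (θ * D ω)) μ := by
    refine Integrable.mono' ((iIte.const_mul (4 * θ ^ 2)).add
      (iD2.const_mul (4 * |θ| ^ 3 * Real.sqrt (R * h)))) mrem.aestronglyMeasurable
      (ae_of_all _ fun ω => hpt ω)
  have b3 : ∫ ω, ‖rem (θ * D ω)‖ ∂μ ≤
      4 * θ ^ 2 * (η * h) + 4 * |θ| ^ 3 * Real.sqrt (R * h) * (C * h) := by
    have h1 : ∫ ω, ‖rem (θ * D ω)‖ ∂μ ≤ ∫ ω, (4 * θ ^ 2 *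
        (if R * h < D ω ^ 2 then D ω ^ 2 else 0) +
        4 * |θ| ^ 3 * Real.sqrt (R * h) * D ω ^ 2) ∂μ :=
      integral_mono irem.norm ((iIte.const_mul _).add (iD2.const_mul _)) hpt
    rw [integral_add (iIte.const_mul _) (iD2.const_mul _), integral_const_mul,
      integral_const_mul] at h1
    have h2 : ∫ ω, (if R * h < D ω ^ 2 then D ω ^ 2 else 0) ∂μ ≤ η * h := by
      have h3 := law_int hTT hML hν hX mf h t (fun x => if R * h < x ^ 2 then x ^ 2 else 0)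
        (Measurable.ite (measurableSet_lt measurable_const (measurable_id.pow_const 2))
          (measurable_id.pow_const 2) measurable_const)
      rw [hDd]
      rw [h3]
      exact hR h
    have h4 : ∫ ω, D ω ^ 2 ∂μ ≤ C * h := by
      have h5 := law_int hTT hML hν hX mf h t (fun x => x ^ 2) (measurable_id.pow_const 2)
      rw [hDd]
      rw [h5]
      exact hC h
    have h6 := mul_le_mul_of_nonneg_left h2 (show 0 ≤ 4 * θ ^ 2 by positivity)
    have h7 := mul_le_mul_of_nonneg_left h4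
      (show 0 ≤ 4 * |θ| ^ 3 * Real.sqrt (R * h) by positivity)
    linarith
  -- the decomposition
  have mE : Measurable (fun ω => Complex.exp (((θ * SS f X t ω : ℝ) : ℂ) * Complex.I)) :=
    Complex.measurable_exp.comp ((Complex.measurable_ofReal.comp mS').mul_const _)
  have nE : ∀ ω, ‖Complex.exp (((θ * SS f X t ω : ℝ) : ℂ) * Complex.I)‖ ≤ 1 := fun ω =>
    (Complex.norm_exp_ofReal_mul_I _).le
  have i1 : Integrable (fun ω => Complex.exp (((θ * SS f X t ω : ℝ) : ℂ) * Complex.I) *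
      ((D ω : ℝ) : ℂ)) μ :=
    iD.ofReal.bdd_mul (c := 1) mE.aestronglyMeasurable (ae_of_all _ nE)
  have i2 : Integrable (fun ω => Complex.exp (((θ * SS f X t ω : ℝ) : ℂ) * Complex.I) *
      ((D ω ^ 2 - h * s : ℝ) : ℂ)) μ :=
    (iD2.sub (integrable_const _)).ofReal.bdd_mul (c := 1) mE.aestronglyMeasurable
      (ae_of_all _ nE)
  have i3 : Integrable (fun ω => Complex.exp (((θ * SS f X t ω : ℝ) : ℂ) * Complex.I) *
      rem (θ * D ω)) μ :=
    irem.bdd_mul (c := 1) mE.aestronglyMeasurable (ae_of_all _ nE)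
  have hdec : ∀ ω, Complex.exp (((θ * SS f X t ω : ℝ) : ℂ) * Complex.I) *
        (Complex.exp (((θ * ∑ i ∈ range h, f (X (t + i) ω) : ℝ) : ℂ) * Complex.I) -
          ((1 - θ ^ 2 * (h * s) / 2 : ℝ) : ℂ)) =
      ((θ : ℂ) * Complex.I) * (Complex.exp (((θ * SS f X t ω : ℝ) : ℂ) * Complex.I) *
        ((D ω : ℝ) : ℂ)) - ((θ : ℂ) ^ 2 / 2) *
        (Complex.exp (((θ * SS f X t ω : ℝ) : ℂ) * Complex.I) * ((D ω ^ 2 - h * s : ℝ) : ℂ)) +
        Complex.exp (((θ * SS f X t ω : ℝ) : ℂ) * Complex.I) * rem (θ * D ω) := by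
    intro ω
    rw [hDd]
    unfold rem
    push_cast
    ring
  simp_rw [hdec]
  have a1 := integral_add (μ := μ) (f := fun ω => ((θ : ℂ) * Complex.I) *
      (Complex.exp (((θ * SS f X t ω : ℝ) : ℂ) * Complex.I) * ((D ω : ℝ) : ℂ)) -
      ((θ : ℂ) ^ 2 / 2) * (Complex.exp (((θ * SS f X t ω : ℝ) : ℂ) * Complex.I) *
      ((D ω ^ 2 - h * s : ℝ) : ℂ))) ((i1.const_mul _).sub (i2.const_mul _)) i3
  have a2 := integral_sub (i1.const_mul ((θ : ℂ) * Complex.I)) (i2.const_mul ((θ : ℂ) ^ 2 / 2))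
  rw [a1, a2, integral_const_mul, integral_const_mul]
  have n1 : ‖(θ : ℂ) * Complex.I * ∫ ω, Complex.exp (((θ * SS f X t ω : ℝ) : ℂ) * Complex.I) *
      ((D ω : ℝ) : ℂ) ∂μ‖ ≤ |θ| * (2 * ∫ x, |GG Q f h x| ∂ν) := by
    rw [norm_mul, norm_mul, Complex.norm_I, mul_one, Complex.norm_real, Real.norm_eq_abs]
    exact mul_le_mul_of_nonneg_left b1 (abs_nonneg _)
  have n2 : ‖(θ : ℂ) ^ 2 / 2 * ∫ ω, Complex.exp (((θ * SS f X t ω : ℝ) : ℂ) * Complex.I) *
      ((D ω ^ 2 - h * s : ℝ) : ℂ) ∂μ‖ ≤ θ ^ 2 / 2 * (2 * ∫ x, |VV Q f h x - h * s| ∂ν) := by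
    rw [norm_mul, norm_div, norm_pow, Complex.norm_real, Real.norm_eq_abs, sq_abs]
    have : ‖(2 : ℂ)‖ = 2 := by norm_num
    rw [this]
    exact mul_le_mul_of_nonneg_left b2 (by positivity)
  have n3 : ‖∫ ω, Complex.exp (((θ * SS f X t ω : ℝ) : ℂ) * Complex.I) * rem (θ * D ω) ∂μ‖ ≤
      4 * θ ^ 2 * (η * h) + 4 * |θ| ^ 3 * Real.sqrt (R * h) * (C * h) := by
    refine (norm_integral_le_integral_norm _).trans (le_trans ?_ b3)
    refine integral_mono i3.norm irem.norm fun ω => ?_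
    show ‖Complex.exp (((θ * SS f X t ω : ℝ) : ℂ) * Complex.I) * rem (θ * D ω)‖ ≤
      ‖rem (θ * D ω)‖
    rw [norm_mul, Complex.norm_exp_ofReal_mul_I, one_mul]
  refine (norm_add_le _ _).trans ?_
  refine (add_le_add ((norm_sub_le _ _).trans (add_le_add n1 n2)) n3).trans (le_of_eq ?_)
  ring

lemma exp_lip (x y : ℝ) :
    ‖Complex.exp ((x : ℂ) * Complex.I) - Complex.exp ((y : ℂ) * Complex.I)‖ ≤ |x - y| := by
  have h1 : Complex.exp ((x : ℂ) * Complex.I) - Complex.exp ((y : ℂ) * Complex.I) =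
      Complex.exp ((y : ℂ) * Complex.I) * (Complex.exp (Complex.I * ((x - y : ℝ) : ℂ)) - 1) := by
    rw [mul_sub, ← Complex.exp_add, mul_one]
    congr 2
    push_cast
    ring
  rw [h1, norm_mul, Complex.norm_exp_ofReal_mul_I, one_mul]
  exact Real.norm_exp_I_mul_ofReal_sub_one_le

lemma reals {n h L : ℕ} (hL : 1 ≤ L) (hh : 1 ≤ h) (hLn : L * h ≤ n) (u θ : ℝ)
    (hθ : θ = u * (Real.sqrt n)⁻¹) :
    (L : ℝ) * h * θ ^ 2 ≤ u ^ 2 ∧ |θ| * Real.sqrt h ≤ |u| / Real.sqrt L ∧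
      L * (|θ| * Real.sqrt h) ≤ |u| * Real.sqrt L := by
  have hL' : (0 : ℝ) < L := by exact_mod_cast hL
  have hh' : (0 : ℝ) < h := by exact_mod_cast hh
  have hn1 : (L : ℝ) * h ≤ n := by exact_mod_cast hLn
  have hn : (0 : ℝ) < n := lt_of_lt_of_le (by positivity) hn1
  have hsn : 0 < Real.sqrt n := Real.sqrt_pos.2 hn
  have hsL : 0 < Real.sqrt L := Real.sqrt_pos.2 hL'
  have h2 : |θ| * Real.sqrt h ≤ |u| / Real.sqrt L := by
    rw [hθ, abs_mul, abs_inv, abs_of_pos hsn, le_div_iff₀ hsL, mul_assoc, mul_assoc]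
    have h3 : (Real.sqrt n)⁻¹ * (Real.sqrt h * Real.sqrt L) ≤ 1 := by
      rw [inv_mul_le_iff₀ hsn, mul_one, ← Real.sqrt_mul hh'.le]
      refine Real.sqrt_le_sqrt ?_
      rw [mul_comm]
      exact hn1
    calc |u| * ((Real.sqrt n)⁻¹ * (Real.sqrt h * Real.sqrt L)) ≤ |u| * 1 :=
          mul_le_mul_of_nonneg_left h3 (abs_nonneg _)
      _ = |u| := mul_one _
  refine ⟨?_, h2, ?_⟩
  · rw [hθ, mul_pow, inv_pow, Real.sq_sqrt hn.le]
    have h3 : (L : ℝ) * h * (n : ℝ)⁻¹ ≤ 1 := by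
      rw [← div_eq_mul_inv, div_le_one hn]
      exact hn1
    calc (L : ℝ) * h * (u ^ 2 * (n : ℝ)⁻¹) = u ^ 2 * ((L : ℝ) * h * (n : ℝ)⁻¹) := by ring
      _ ≤ u ^ 2 * 1 := mul_le_mul_of_nonneg_left h3 (sq_nonneg _)
      _ = u ^ 2 := mul_one _
  · calc (L : ℝ) * (|θ| * Real.sqrt h) ≤ L * (|u| / Real.sqrt L) :=
          mul_le_mul_of_nonneg_left h2 hL'.le
      _ = |u| * Real.sqrt L := by
          have h3 : (L : ℝ) = Real.sqrt L * Real.sqrt L := (Real.mul_self_sqrt hL'.le).symm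
          field_simp
          rw [Real.sq_sqrt hL'.le]
          ring

/-- Cauchy-Schwarz on a probability space -/
lemma int_abs_le {T : Type} [MeasurableSpace T] {ρ : Measure T} [IsProbabilityMeasure ρ]
    {g : T → ℝ} (lg : MemLp g 2 ρ) : ∫ x, |g x| ∂ρ ≤ Real.sqrt (∫ x, g x ^ 2 ∂ρ) := by
  have h1 := variance_nonneg (fun x => |g x|) ρ
  have h2 : MemLp (fun x => |g x|) 2 ρ := lg.abs
  rw [variance_eq_sub h2] at h1
  refine Real.le_sqrt_of_sq_le ?_
  have h3 : ∫ x, ((fun x => |g x|) ^ 2) x ∂ρ = ∫ x, g x ^ 2 ∂ρ := by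
    refine integral_congr_ae (ae_of_all _ fun x => ?_)
    simp [sq_abs]
  rw [h3] at h1
  linarith

/-- the characteristic functions, one value of `n` -/
lemma est (hTT : S_TT) (hML : S_ML) (hG1 : S_G1) (hν : ν.bind Q = ν) (hX : MC Q ν μ X)
    {f : S → ℝ} (mf : Measurable f) (lf : MemLp f 2 ν) (C η R s : ℝ) (hR0 : 0 < R) (hC0 : 0 ≤ C)
    (hη0 : 0 ≤ η) (hs : 0 ≤ s)
    (hC : ∀ n : ℕ, ∫ ω, SS f X n ω ^ 2 ∂μ ≤ C * n)
    (hR : ∀ N : ℕ, ∫ ω, (if R * N < SS f X N ω ^ 2 then SS f X N ω ^ 2 else 0) ∂μ ≤ η * N)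
    (n h L q : ℕ) (hh : 1 ≤ h) (hL : 1 ≤ L) (hn : L * h + q = n) (hq : q ≤ L) (u : ℝ)
    (hus : u ^ 2 * s ≤ 2 * L) :
    ‖(∫ ω, Complex.exp (((u * (Real.sqrt n)⁻¹ * SS f X n ω : ℝ) : ℂ) * Complex.I) ∂μ) -
        ((1 - (u * (Real.sqrt n)⁻¹) ^ 2 * (h * s) / 2 : ℝ) : ℂ) ^ L‖ ≤
      |u| * (Real.sqrt n)⁻¹ * (L * ∫ x, |f x| ∂ν) +
      (2 * |u| * Real.sqrt L * Real.sqrt ((∫ x, GG Q f h x ^ 2 ∂ν) / h) +
        u ^ 2 * ∫ x, |VV Q f h x / h - s| ∂ν + 4 * u ^ 2 * η +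
        4 * C * Real.sqrt R * u ^ 2 * (|u| / Real.sqrt L)) := by
  obtain ⟨hmap, -, -⟩ := hML S Q ν hν Ω μ X hX
  obtain ⟨hGV, -⟩ := hG1 S Q ν hν f mf lf
  obtain ⟨mGG, lGG, mVV, iVV⟩ := hGV h
  have hmp : ∀ i, MeasurePreserving (X i) μ ν := fun i => ⟨hX.meas i, hmap i⟩
  obtain ⟨θ, hθ⟩ : ∃ θ : ℝ, θ = u * (Real.sqrt n)⁻¹ := ⟨_, rfl⟩
  have hLn : L * h ≤ n := by omega
  obtain ⟨r1, r2, r3⟩ := reals hL hh hLn u θ hθ
  have hL' : (0 : ℝ) < L := by exact_mod_cast hL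
  have hh' : (0 : ℝ) < h := by exact_mod_cast hh
  rw [← hθ]
  have mSS : ∀ k, Measurable (SS f X k) := by
    intro k
    unfold SS
    exact Finset.measurable_sum _ fun i _ => mf.comp (hX.meas _)
  have mex : ∀ k, Measurable (fun ω => Complex.exp (((θ * SS f X k ω : ℝ) : ℂ) * Complex.I)) :=
    fun k => Complex.measurable_exp.comp
      ((Complex.measurable_ofReal.comp ((mSS k).const_mul θ)).mul_const _)
  have iex : ∀ k, Integrable (fun ω => Complex.exp (((θ * SS f X k ω : ℝ) : ℂ) * Complex.I)) μ :=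
    fun k => Integrable.of_bound (mex k).aestronglyMeasurable 1
      (ae_of_all _ fun ω => (Complex.norm_exp_ofReal_mul_I _).le)
  obtain ⟨κ, hκd⟩ : ∃ κ : ℝ, κ = 1 - θ ^ 2 * (h * s) / 2 := ⟨_, rfl⟩
  have hκ : |κ| ≤ 1 := by
    have h1 : 0 ≤ θ ^ 2 * (h * s) := by positivity
    have h2 : (L : ℝ) * (θ ^ 2 * (h * s)) ≤ L * 2 := by
      calc (L : ℝ) * (θ ^ 2 * (h * s)) = ((L : ℝ) * h * θ ^ 2) * s := by ring
        _ ≤ u ^ 2 * s := mul_le_mul_of_nonneg_right r1 hs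
        _ ≤ L * 2 := by linarith
    have h3 : θ ^ 2 * (h * s) ≤ 2 := le_of_mul_le_mul_left h2 hL'
    rw [abs_le]
    constructor <;> rw [hκd] <;> linarith
  rw [← hκd]
  -- the last incomplete block
  have hlast : ‖(∫ ω, Complex.exp (((θ * SS f X n ω : ℝ) : ℂ) * Complex.I) ∂μ) -
      ∫ ω, Complex.exp (((θ * SS f X (L * h) ω : ℝ) : ℂ) * Complex.I) ∂μ‖ ≤
      |u| * (Real.sqrt n)⁻¹ * (L * ∫ x, |f x| ∂ν) := by
    rw [← integral_sub (iex _) (iex _)]
    refine (norm_integral_le_integral_norm _).trans ?_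
    have ifX : ∀ i, Integrable (fun ω => |f (X i ω)|) μ := fun i =>
      ((lf.comp_measurePreserving (hmp i)).integrable (by norm_num)).abs
    have h1 : ∀ ω, ‖Complex.exp (((θ * SS f X n ω : ℝ) : ℂ) * Complex.I) -
        Complex.exp (((θ * SS f X (L * h) ω : ℝ) : ℂ) * Complex.I)‖ ≤
        |θ| * ∑ i ∈ range q, |f (X (L * h + i) ω)| := by
      intro ω
      refine (exp_lip _ _).trans ?_
      have h2 : θ * SS f X n ω - θ * SS f X (L * h) ω =
          θ * ∑ i ∈ range q, f (X (L * h + i) ω) := by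
        unfold SS
        rw [← hn, Finset.sum_range_add]
        ring
      rw [h2, abs_mul]
      exact mul_le_mul_of_nonneg_left (Finset.abs_sum_le_sum_abs _ _) (abs_nonneg _)
    have h3 : ∫ ω, ‖Complex.exp (((θ * SS f X n ω : ℝ) : ℂ) * Complex.I) -
        Complex.exp (((θ * SS f X (L * h) ω : ℝ) : ℂ) * Complex.I)‖ ∂μ ≤
        ∫ ω, |θ| * ∑ i ∈ range q, |f (X (L * h + i) ω)| ∂μ :=
      integral_mono ((iex _).sub (iex _)).norm
        ((integrable_finsetSum _ fun i _ => ifX _).const_mul _) h1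
    refine h3.trans ?_
    rw [integral_const_mul, integral_finsetSum _ fun i _ => ifX _]
    have h4 : ∀ i ∈ range q, ∫ ω, |f (X (L * h + i) ω)| ∂μ = ∫ x, |f x| ∂ν := by
      intro i _
      rw [← hmap (L * h + i), integral_map (hX.meas _).aemeasurable
        (f := fun x => |f x|) mf.abs.aestronglyMeasurable]
    rw [Finset.sum_congr rfl h4, Finset.sum_const, card_range, nsmul_eq_mul]
    have h5 : |θ| = |u| * (Real.sqrt n)⁻¹ := by
      rw [hθ, abs_mul, abs_of_nonneg (inv_nonneg.2 (Real.sqrt_nonneg _))]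
    rw [h5]
    have h6 : 0 ≤ ∫ x, |f x| ∂ν := integral_nonneg fun _ => abs_nonneg _
    have h7 : (q : ℝ) ≤ L := by exact_mod_cast hq
    exact mul_le_mul_of_nonneg_left (mul_le_mul_of_nonneg_right h7 h6) (by positivity)
  -- the blocks
  obtain ⟨e, he⟩ : ∃ e : ℝ, e = 2 * |θ| * ∫ x, |GG Q f h x| ∂ν +
      θ ^ 2 * ∫ x, |VV Q f h x - h * s| ∂ν +
        (4 * θ ^ 2 * (η * h) + 4 * |θ| ^ 3 * Real.sqrt (R * h) * (C * h)) := ⟨_, rfl⟩
  have hbl : ‖(∫ ω, Complex.exp (((θ * SS f X (L * h) ω : ℝ) : ℂ) * Complex.I) ∂μ) -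
      (κ : ℂ) ^ L‖ ≤ L * e := by
    refine tele (fun j => ∫ ω, Complex.exp (((θ * SS f X (j * h) ω : ℝ) : ℂ) * Complex.I) ∂μ)
      κ e ?_ hκ ?_ L
    · simp [SS]
    · intro j
      have h1 : (∫ ω, Complex.exp (((θ * SS f X ((j + 1) * h) ω : ℝ) : ℂ) * Complex.I) ∂μ) -
          (κ : ℂ) * ∫ ω, Complex.exp (((θ * SS f X (j * h) ω : ℝ) : ℂ) * Complex.I) ∂μ =
          ∫ ω, Complex.exp (((θ * SS f X (j * h) ω : ℝ) : ℂ) * Complex.I) *
        (Complex.exp (((θ * ∑ i ∈ range h, f (X (j * h + i) ω) : ℝ) : ℂ) * Complex.I) -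
          ((1 - θ ^ 2 * (h * s) / 2 : ℝ) : ℂ)) ∂μ := by
        rw [← integral_const_mul, ← integral_sub (iex _) ((iex _).const_mul _)]
        refine integral_congr_ae (ae_of_all _ fun ω => ?_)
        show _ - _ = Complex.exp (((θ * SS f X (j * h) ω : ℝ) : ℂ) * Complex.I) *
          (Complex.exp (((θ * ∑ i ∈ range h, f (X (j * h + i) ω) : ℝ) : ℂ) * Complex.I) -
          ((1 - θ ^ 2 * (h * s) / 2 : ℝ) : ℂ))
        rw [mul_sub, ← Complex.exp_add, ← hκd]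
        congr 1
        · congr 1
          unfold SS
          rw [add_mul, one_mul, Finset.sum_range_add]
          push_cast
          ring
        · ring
      show ‖(∫ ω, Complex.exp (((θ * SS f X ((j + 1) * h) ω : ℝ) : ℂ) * Complex.I) ∂μ) -
          (κ : ℂ) * ∫ ω, Complex.exp (((θ * SS f X (j * h) ω : ℝ) : ℂ) * Complex.I) ∂μ‖ ≤ e
      rw [h1, he]
      exact block hTT hML hG1 hν hX mf lf C η R s hR0 hC hR (j * h) h θ
  -- the estimate of `L e`
  have hLe : L * e ≤ 2 * |u| * Real.sqrt L * Real.sqrt ((∫ x, GG Q f h x ^ 2 ∂ν) / h) +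
        u ^ 2 * ∫ x, |VV Q f h x / h - s| ∂ν + 4 * u ^ 2 * η +
        4 * C * Real.sqrt R * u ^ 2 * (|u| / Real.sqrt L) := by
    have t1 : (L : ℝ) * (2 * |θ| * ∫ x, |GG Q f h x| ∂ν) ≤
        2 * |u| * Real.sqrt L * Real.sqrt ((∫ x, GG Q f h x ^ 2 ∂ν) / h) := by
      have h1 := int_abs_le lGG
      have h2 : Real.sqrt (∫ x, GG Q f h x ^ 2 ∂ν) =
          Real.sqrt h * Real.sqrt ((∫ x, GG Q f h x ^ 2 ∂ν) / h) := by
        rw [← Real.sqrt_mul hh'.le, mul_div_cancel₀ _ hh'.ne']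
      rw [h2] at h1
      calc (L : ℝ) * (2 * |θ| * ∫ x, |GG Q f h x| ∂ν)
          ≤ L * (2 * |θ| * (Real.sqrt h * Real.sqrt ((∫ x, GG Q f h x ^ 2 ∂ν) / h))) := by
            gcongr
        _ = 2 * (L * (|θ| * Real.sqrt h)) * Real.sqrt ((∫ x, GG Q f h x ^ 2 ∂ν) / h) := by ring
        _ ≤ 2 * (|u| * Real.sqrt L) * Real.sqrt ((∫ x, GG Q f h x ^ 2 ∂ν) / h) := by
            gcongr
        _ = _ := by ring
    have t2 : (L : ℝ) * (θ ^ 2 * ∫ x, |VV Q f h x - h * s| ∂ν) ≤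
        u ^ 2 * ∫ x, |VV Q f h x / h - s| ∂ν := by
      have h1 : ∫ x, |VV Q f h x - h * s| ∂ν = h * ∫ x, |VV Q f h x / h - s| ∂ν := by
        rw [← integral_const_mul]
        refine integral_congr_ae (ae_of_all _ fun x => ?_)
        show |VV Q f h x - h * s| = h * |VV Q f h x / h - s|
        rw [← abs_of_pos hh', ← abs_mul, abs_of_pos hh']
        congr 1
        field_simp
      rw [h1]
      have h2 : 0 ≤ ∫ x, |VV Q f h x / h - s| ∂ν := integral_nonneg fun _ => abs_nonneg _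
      calc (L : ℝ) * (θ ^ 2 * (h * ∫ x, |VV Q f h x / h - s| ∂ν))
          = ((L : ℝ) * h * θ ^ 2) * ∫ x, |VV Q f h x / h - s| ∂ν := by ring
        _ ≤ _ := mul_le_mul_of_nonneg_right r1 h2
    have t3 : (L : ℝ) * (4 * θ ^ 2 * (η * h)) ≤ 4 * u ^ 2 * η := by
      calc (L : ℝ) * (4 * θ ^ 2 * (η * h)) = 4 * ((L : ℝ) * h * θ ^ 2) * η := by ring
        _ ≤ 4 * u ^ 2 * η := by gcongr
    have t4 : (L : ℝ) * (4 * |θ| ^ 3 * Real.sqrt (R * h) * (C * h)) ≤
        4 * C * Real.sqrt R * u ^ 2 * (|u| / Real.sqrt L) := by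
      have h1 : |θ| ^ 3 = θ ^ 2 * |θ| := by rw [← sq_abs θ]; ring
      rw [h1, Real.sqrt_mul hR0.le]
      calc (L : ℝ) * (4 * (θ ^ 2 * |θ|) * (Real.sqrt R * Real.sqrt h) * (C * h))
          = 4 * C * Real.sqrt R * ((L : ℝ) * h * θ ^ 2) * (|θ| * Real.sqrt h) := by ring
        _ ≤ 4 * C * Real.sqrt R * u ^ 2 * (|u| / Real.sqrt L) := by gcongr
    rw [he]
    linarith
  calc ‖(∫ ω, Complex.exp (((θ * SS f X n ω : ℝ) : ℂ) * Complex.I) ∂μ) - (κ : ℂ) ^ L‖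
      ≤ ‖(∫ ω, Complex.exp (((θ * SS f X n ω : ℝ) : ℂ) * Complex.I) ∂μ) -
        ∫ ω, Complex.exp (((θ * SS f X (L * h) ω : ℝ) : ℂ) * Complex.I) ∂μ‖ +
        ‖(∫ ω, Complex.exp (((θ * SS f X (L * h) ω : ℝ) : ℂ) * Complex.I) ∂μ) - (κ : ℂ) ^ L‖ :=
        norm_sub_le_norm_sub_add_norm_sub _ _ _
    _ ≤ _ := add_le_add hlast (hbl.trans hLe)

/-- the characteristic functions converge -/
lemma char_lim (hTT : S_TT) (hML : S_ML) (hUI : S_UI) (hCV : S_CV) (hG1 : S_G1) (hG2 : S_G2)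
    (hG3 : S_G3) (hν : ν.bind Q = ν) (hE : Erg Q ν) (hX : MC Q ν μ X) {f : S → ℝ}
    {Φ Ψ : ℝ × S → ℝ} (hr : Res Q ν f Φ Ψ) (u : ℝ) :
    Tendsto (fun n : ℕ => ∫ ω, Complex.exp
      (((u * (Real.sqrt n)⁻¹ * SS f X n ω : ℝ) : ℂ) * Complex.I) ∂μ) atTop
      (𝓝 ((Real.exp (-(sg Q ν f Φ Ψ * u ^ 2 / 2)) : ℝ) : ℂ)) := by
  obtain ⟨hs, -, C, hC0, hC⟩ := hG3 S Q ν hν f Φ Ψ hr Ω μ X hX
  have hg2 := hG2 S Q ν hν f Φ Ψ hr
  have hcv := hCV S Q ν hν hE f Φ Ψ hr Ω μ X hX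
  obtain ⟨s, hsd⟩ : ∃ s : ℝ, s = sg Q ν f Φ Ψ := ⟨_, rfl⟩
  rw [← hsd] at hs hcv ⊢
  rw [Metric.tendsto_nhds]
  intro ε hε
  obtain ⟨e, he⟩ : ∃ e : ℝ, e = ε / 8 := ⟨_, rfl⟩
  have he0 : 0 < e := by rw [he]; positivity
  obtain ⟨R, hR0, hR⟩ := hUI S Q ν hν f Φ Ψ hr Ω μ X hX (e / (4 * (u ^ 2 + 1))) (by positivity)
  obtain ⟨η, hη⟩ : ∃ η : ℝ, η = e / (4 * (u ^ 2 + 1)) := ⟨_, rfl⟩
  rw [← hη] at hR
  have hη0 : 0 ≤ η := by rw [hη]; positivity
  have hη1 : 4 * u ^ 2 * η ≤ e := by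
    rw [hη]
    have h1 : 4 * u ^ 2 * (e / (4 * (u ^ 2 + 1))) = e * (u ^ 2 / (u ^ 2 + 1)) := by
      field_simp
    rw [h1]
    have h2 : u ^ 2 / (u ^ 2 + 1) ≤ 1 := by
      rw [div_le_one (by positivity)]
      linarith
    calc e * (u ^ 2 / (u ^ 2 + 1)) ≤ e * 1 := mul_le_mul_of_nonneg_left h2 he0.le
      _ = e := mul_one _
  -- the choice of the number of blocks
  have E1 : ∀ᶠ L : ℕ in atTop, 4 * C * Real.sqrt R * u ^ 2 * (|u| / Real.sqrt L) < e := by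
    have h1 : Tendsto (fun L : ℕ => 4 * C * Real.sqrt R * u ^ 2 * (|u| / Real.sqrt L)) atTop
        (𝓝 (4 * C * Real.sqrt R * u ^ 2 * 0)) :=
      (Tendsto.div_atTop tendsto_const_nhds (Real.tendsto_sqrt_atTop.comp
        tendsto_natCast_atTop_atTop)).const_mul _
    rw [mul_zero] at h1
    exact h1.eventually_lt_const he0
  have E2 : ∀ᶠ L : ℕ in atTop, u ^ 2 * s ≤ 2 * (L : ℝ) := by
    have h1 : Tendsto (fun L : ℕ => 2 * (L : ℝ)) atTop atTop :=
      tendsto_natCast_atTop_atTop.const_mul_atTop (by norm_num)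
    exact h1.eventually_ge_atTop _
  have E3 : ∀ᶠ L : ℕ in atTop, |(1 + (-(s * u ^ 2 / 2)) / (L : ℝ)) ^ L -
      Real.exp (-(s * u ^ 2 / 2))| < e := by
    have h1 := Real.tendsto_one_add_div_pow_exp (-(s * u ^ 2 / 2))
    have h2 := (Metric.tendsto_nhds.1 h1) e he0
    filter_upwards [h2] with L hL
    rwa [Real.dist_eq] at hL
  obtain ⟨L, ⟨hL1, hL2⟩, hL3, hL4⟩ := ((E1.and E2).and (E3.and (eventually_ge_atTop 1))).exists
  have hL' : (0 : ℝ) < L := by exact_mod_cast hL4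
  have hdiv : Tendsto (fun n : ℕ => n / L) atTop atTop := Nat.tendsto_div_const_atTop (by omega)
  have G1 : ∀ᶠ n : ℕ in atTop, 2 * |u| * Real.sqrt L *
      Real.sqrt ((∫ x, GG Q f (n / L) x ^ 2 ∂ν) / ((n / L : ℕ) : ℝ)) < e := by
    have h1 : Tendsto (fun n : ℕ => 2 * |u| * Real.sqrt L *
        Real.sqrt ((∫ x, GG Q f (n / L) x ^ 2 ∂ν) / ((n / L : ℕ) : ℝ))) atTop
        (𝓝 (2 * |u| * Real.sqrt L * Real.sqrt 0)) :=
      ((hg2.comp hdiv).sqrt).const_mul _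
    rw [Real.sqrt_zero, mul_zero] at h1
    exact h1.eventually_lt_const he0
  have G2 : ∀ᶠ n : ℕ in atTop,
      u ^ 2 * ∫ x, |VV Q f (n / L) x / ((n / L : ℕ) : ℝ) - s| ∂ν < e := by
    have h1 : Tendsto (fun n : ℕ =>
        u ^ 2 * ∫ x, |VV Q f (n / L) x / ((n / L : ℕ) : ℝ) - s| ∂ν) atTop (𝓝 (u ^ 2 * 0)) :=
      (hcv.comp hdiv).const_mul _
    rw [mul_zero] at h1
    exact h1.eventually_lt_const he0
  have G3 : ∀ᶠ n : ℕ in atTop, |u| * (Real.sqrt n)⁻¹ * (L * ∫ x, |f x| ∂ν) < e := by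
    have h1 : Tendsto (fun n : ℕ => |u| * (Real.sqrt n)⁻¹ * (L * ∫ x, |f x| ∂ν)) atTop
        (𝓝 (|u| * 0 * (L * ∫ x, |f x| ∂ν))) :=
      ((tendsto_inv_atTop_zero.comp (Real.tendsto_sqrt_atTop.comp
        tendsto_natCast_atTop_atTop)).const_mul _).mul_const _
    rw [mul_zero, zero_mul] at h1
    exact h1.eventually_lt_const he0
  have G4 : ∀ᶠ n : ℕ in atTop, |(1 - (u * (Real.sqrt n)⁻¹) ^ 2 *
      (((n / L : ℕ) : ℝ) * s) / 2) ^ L - (1 + (-(s * u ^ 2 / 2)) / (L : ℝ)) ^ L| < e := by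
    have h1 : Tendsto (fun n : ℕ => ((n / L : ℕ) : ℝ) / n) atTop (𝓝 (1 / L)) := by
      have h2 := (tendsto_nat_floor_mul_div_atTop (R := ℝ) (a := 1 / L) (by positivity)).comp
        tendsto_natCast_atTop_atTop
      refine h2.congr fun n => ?_
      show (⌊1 / (L : ℝ) * (n : ℝ)⌋₊ : ℝ) / (n : ℝ) = _
      rw [show 1 / (L : ℝ) * (n : ℝ) = (n : ℝ) / (L : ℝ) by ring, Nat.floor_div_eq_div]
    have h3 : Tendsto (fun n : ℕ => (1 - u ^ 2 * (((n / L : ℕ) : ℝ) / n) * s / 2) ^ L) atTop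
        (𝓝 ((1 - u ^ 2 * (1 / L) * s / 2) ^ L)) :=
      (((((h1.const_mul (u ^ 2)).mul_const s).div_const 2).const_sub 1).pow L)
    have h4 : (1 - u ^ 2 * (1 / L) * s / 2) ^ L = (1 + (-(s * u ^ 2 / 2)) / (L : ℝ)) ^ L := by
      congr 1
      ring
    rw [h4] at h3
    have h5 := (Metric.tendsto_nhds.1 h3) e he0
    filter_upwards [h5, eventually_gt_atTop 0] with n hn hn0
    rw [Real.dist_eq] at hn
    have hn' : (0 : ℝ) < n := by exact_mod_cast hn0
    have h6 : (u * (Real.sqrt n)⁻¹) ^ 2 * (((n / L : ℕ) : ℝ) * s) / 2 =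
        u ^ 2 * (((n / L : ℕ) : ℝ) / n) * s / 2 := by
      rw [mul_pow, inv_pow, Real.sq_sqrt hn'.le]
      ring
    rw [h6]
    exact hn
  filter_upwards [G1, G2, G3, G4, hdiv.eventually_ge_atTop 1] with n g1 g2 g3 g4 g5
  have hest := est hTT hML hG1 hν hX hr.mf hr.lf C η R s hR0 hC0.le hη0 hs hC hR n (n / L) L
    (n % L) g5 hL4 (Nat.div_add_mod n L) (Nat.mod_lt _ (by omega)).le u hL2
  rw [dist_eq_norm]
  obtain ⟨A, hA⟩ : ∃ A : ℝ, A = 1 - (u * (Real.sqrt n)⁻¹) ^ 2 * (((n / L : ℕ) : ℝ) * s) / 2 :=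
    ⟨_, rfl⟩
  rw [← hA] at hest g4
  have k1 : ‖((A : ℂ)) ^ L - ((Real.exp (-(s * u ^ 2 / 2)) : ℝ) : ℂ)‖ < 2 * e := by
    have h1 : ((A : ℂ)) ^ L - ((Real.exp (-(s * u ^ 2 / 2)) : ℝ) : ℂ) =
        ((A ^ L - Real.exp (-(s * u ^ 2 / 2)) : ℝ) : ℂ) := by push_cast; ring
    rw [h1, Complex.norm_real, Real.norm_eq_abs]
    have h2 := abs_sub_le (A ^ L) ((1 + (-(s * u ^ 2 / 2)) / (L : ℝ)) ^ L)
      (Real.exp (-(s * u ^ 2 / 2)))
    linarith
  have k2 := norm_sub_le_norm_sub_add_norm_sub (∫ ω, Complex.exp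
      (((u * (Real.sqrt n)⁻¹ * SS f X n ω : ℝ) : ℂ) * Complex.I) ∂μ) ((A : ℂ) ^ L)
      ((Real.exp (-(s * u ^ 2 / 2)) : ℝ) : ℂ)
  linarith

end law

/-- the central limit theorem -/
theorem clt (hTT : S_TT) (hML : S_ML) (hUI : S_UI) (hCV : S_CV) (hG1 : S_G1) (hG2 : S_G2)
    (hG3 : S_G3) : S_CLT := by
  intro S _ Q _ ν _ hν hE f Φ Ψ hr Ω _ μ _ X hX g hg hgb
  obtain ⟨hs, -, -⟩ := hG3 S Q ν hν f Φ Ψ hr Ω μ X hX
  have mSn : ∀ n : ℕ, Measurable (fun ω => (Real.sqrt n)⁻¹ * ∑ i ∈ range n, f (X i ω)) :=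
    fun n => (Finset.measurable_sum _ fun i _ => hr.mf.comp (hX.meas _)).const_mul _
  let P : ℕ → ProbabilityMeasure ℝ := fun n =>
    ⟨μ.map (fun ω => (Real.sqrt n)⁻¹ * ∑ i ∈ range n, f (X i ω)),
      Measure.isProbabilityMeasure_map (mSn n).aemeasurable⟩
  let P0 : ProbabilityMeasure ℝ := ⟨gaussianReal 0 (sg Q ν f Φ Ψ).toNNReal, inferInstance⟩
  have hlim : Tendsto P atTop (𝓝 P0) := by
    rw [ProbabilityMeasure.tendsto_iff_tendsto_charFun]
    intro u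
    have h1 := char_lim hTT hML hUI hCV hG1 hG2 hG3 hν hE hX hr u
    have h2 : charFun (P0 : Measure ℝ) u = ((Real.exp (-(sg Q ν f Φ Ψ * u ^ 2 / 2)) : ℝ) : ℂ) := by
      show charFun (gaussianReal 0 (sg Q ν f Φ Ψ).toNNReal) u = _
      rw [charFun_gaussianReal, Complex.ofReal_exp]
      congr 1
      rw [Real.coe_toNNReal _ hs]
      push_cast
      ring
    rw [h2]
    refine h1.congr fun n => ?_
    show _ = charFun (μ.map (fun ω => (Real.sqrt n)⁻¹ * ∑ i ∈ range n, f (X i ω))) u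
    rw [charFun_apply_real, integral_map (mSn n).aemeasurable
      (by fun_prop)]
    refine integral_congr_ae (ae_of_all _ fun ω => ?_)
    show Complex.exp (((u * (Real.sqrt n)⁻¹ * SS f X n ω : ℝ) : ℂ) * Complex.I) =
      Complex.exp ((u : ℂ) * (((Real.sqrt n)⁻¹ * ∑ i ∈ range n, f (X i ω) : ℝ) : ℂ) * Complex.I)
    congr 2
    unfold SS
    push_cast
    ring
  obtain ⟨C, hC⟩ := hgb
  have h3 := (ProbabilityMeasure.tendsto_iff_forall_integral_tendsto.1 hlim)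
    (BoundedContinuousFunction.ofNormedAddCommGroup g hg C fun x => by
      rw [Real.norm_eq_abs]; exact hC x)
  refine h3.congr fun n => ?_
  show ∫ x, g x ∂(μ.map (fun ω => (Real.sqrt n)⁻¹ * ∑ i ∈ range n, f (X i ω))) = _
  rw [integral_map (mSn n).aemeasurable hg.measurable.aestronglyMeasurable]

end Pool.Agent.N99.ME
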